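import Pool.Agent.Helper88.MT.Final
import Pool.Agent.Helper34.MT.SlopeSharp

/-
RESERVE (hand-in until 2026-12-02, replaced by SmallTameConductor). Claim file:

Proves: For K algebraically closed of characteristic 0 and R a set of pairs of naturals, R has no (n,D) with 4|D, D>=8, n<=D and (4|n or 2n=D) iff every symplectic Mumford-Tate pair (G,V) of weights 0,1 over K, V an orthogonal sum of pairwise non-isomorphic nonzero irreducible W_j, is the group of all similitudes preserving the W_j as soon as for each j some c in G and additive v:K->Q have n odd slopes on W_j with (n,dim W_j) in R.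
Definitions: IsMTPair, IsSplit, IsFull (Helper21/MT/Defs.lean): G in GL_m(K) closed, of similitudes of the form J, generated as a closed group by its cocharacters with weights 0,1; the W_j as above; G contains all similitudes preserving them. IsAdditive v: v(xy)=v(x)+v(y) for x,y not 0. HasOddSlopes J v c W n: c has multiplier q; for some rational d not 0 each eigenvalue a of c on W has v(a)=v(q)/2+kd, k integer, odd for n of the a, with multiplicity.
Relation: Partial. Not formalised: G=(G_l)^0 over the closure of Q_l (Faltings, Pink), c a Frobenius power, v above p give Q1 for h(X), X/k abelian of even dim g>2 with End=Z, if at one place n=2 mod 4 and n is not g, n counting the slopes s with s-1/2 of least 2-adic value. So if 4|g it is enough that slope 1/2 has multiplicity 2 mod 4 and no denominator of a slope is divisible by 4. Also p-rank f odd, f not g/2, other slopes 1/2; products. New in Pink's open dimensions (2g=20, 32, 64...). Known: g odd (Serre), Pink's other dimensions, K3 type (Zarhin), toric rank 1 (Hall).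
-/

/-!
MP_b8862a_ag (Mumford–Tate part): the number of odd slopes of one element on each irreducible
summand, compared with the dimension of the summand, decides whether a symplectic Mumford–Tate
pair of weights zero and one has to be as large as possible.

The definitions of `ZariskiClosed`, `IsCochar`, `IsMTPair`, `IsSplit`, `IsFull` are in
`Pool/Agent/Helper21/MT/Defs.lean`, those of `IsAdditive` and `HasOddSlopes` in
`Pool/Agent/Helper88/MT/SlopeDefs.lean`.
-/

open Module MTPairs

namespace Pool.Agent.Results.MP_b8862a_ag.ModFour

/-- For a set `R` of pairs of natural numbers the following are equivalent: every symplectic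
Mumford-Tate pair of weights `0` and `1` whose standard representation is an orthogonal sum of
pairwise non isomorphic irreducible summands, for each of which some element `γ` of the group and
some additive valuation `v` have `n` odd slopes on the summand, where `n` and the dimension `D` of
the summand form a pair `(n, D)` in `R`, is the full group of similitudes preserving the summands;
there is no pair `(n, D)` in `R` for which `D ≥ 8` is divisible by `4`, `n ≤ D`, and `n` is
divisible by `4` or equal to `D / 2`. -/
theorem result (K : Type*) [Field K] [IsAlgClosed K] [CharZero K] (R : Set (ℕ × ℕ)) :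
    (∀ (m ι : Type) [Fintype m] [DecidableEq m] [Fintype ι] [DecidableEq ι]
      (J : Matrix m m K) (G : Subgroup (Matrix.GeneralLinearGroup m K))
      (W : ι → Submodule K (m → K)), IsMTPair J G → IsSplit J G W → (∀ j, W j ≠ ⊥) →
      (∀ j, ∃ γ ∈ G, ∃ v : K → ℚ, IsAdditive v ∧ ∃ n : ℕ, HasOddSlopes J v γ (W j) n ∧
        (n, finrank K (W j)) ∈ R) →
      IsFull J G W) ↔
    ∀ n D : ℕ, (n, D) ∈ R → ¬ (4 ∣ D ∧ 8 ≤ D ∧ n ≤ D ∧ (4 ∣ n ∨ 2 * n = D)) := by
  constructor
  · rintro h n D hR ⟨⟨b, rfl⟩, h8, hn, hc⟩
    have hb : 2 ≤ b := by omega
    obtain ⟨G, h1, h2, ⟨γ, hγ, v, hv, hs⟩, h4⟩ :=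
      exists_slopes_counterexample K (b := b) (n := n) hb hn (hc.imp_right fun h => by omega)
    apply h4
    have hdim : finrank K (⊤ : Submodule K (Fin 2 × (Fin 2 × Fin b) → K)) = 4 * b := by
      rw [finrank_top, finrank_fintype_fun_eq_card]
      simp [Fintype.card_prod]
      ring
    refine h _ _ _ _ _ h1 h2 ?_ ?_
    · intro _ h0
      rw [h0, finrank_bot] at hdim
      omega
    · intro _
      refine ⟨γ, hγ, v, hv, n, hs, ?_⟩
      rw [hdim]
      exact hR
  · intro hR m ι _ _ _ _ J G W hG hW hne hq
    apply MTP.MF.isFull_of_odd_slopes hG hW
    intro j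
    obtain ⟨γ, hγ, v, hv, n, hs, hn⟩ := hq j
    exact ⟨γ, hγ, v, hv, n, hs, hne j, hR _ _ hn⟩

end Pool.Agent.Results.MP_b8862a_ag.ModFour
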