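import Pool.Agent.Helper88.BM.Ball
import Pool.Agent.Helper88.BM.Ridge
import Pool.Agent.Helper88.BM.Spaces

/-!
# The maximal Banach-Mazur distance to the cube is at most `2 n ^ (3/4)`
-/

namespace Pool.Agent.Helper88.Reserve.ThreeQuarters

/-- The Banach-Mazur distance of two real normed spaces: the infimum of `‖T‖ ‖T⁻¹‖` over the
linear isomorphisms `T : X → Y`. -/
noncomputable def bmDist (X Y : Type) [NormedAddCommGroup X] [NormedSpace ℝ X]
    [NormedAddCommGroup Y] [NormedSpace ℝ Y] : ℝ :=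
  sInf {d : ℝ | ∃ T : X ≃L[ℝ] Y, d = ‖(T : X →L[ℝ] Y)‖ * ‖(T.symm : Y →L[ℝ] X)‖}

/-- The distances `d(X, ℓ_∞^n)` of all real normed spaces `X` of dimension `n` (`Fin n → ℝ` carries
the supremum norm). -/
def distances (n : ℕ) : Set ℝ :=
  {d : ℝ | ∃ (X : Type) (_ : NormedAddCommGroup X) (_ : NormedSpace ℝ X),
    Module.finrank ℝ X = n ∧ d = bmDist X (Fin n → ℝ)}

/-- `R_∞^n`, the largest distance of a normed space of dimension `n` to `ℓ_∞^n`. -/
noncomputable def Rinf (n : ℕ) : ℝ := sSup (distances n)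

/-- `R_∞^n ≤ 2 n ^ (3/4)` for every `n ≥ 1`. -/
theorem result (n : ℕ) (hn : 1 ≤ n) :
    BddAbove (distances n) ∧ Rinf n ≤ 2 * (n : ℝ) ^ (3 / 4 : ℝ) := by
  have key : ∀ d ∈ distances n, d ≤ 2 * (n : ℝ) ^ (3 / 4 : ℝ) := by
    rintro d ⟨X, i1, i2, hX, rfl⟩
    obtain ⟨T, hT⟩ := Pool.Agent.BM.exists_equiv_of_position (n := n) hn
      (2 * (n : ℝ) ^ (3 / 4 : ℝ))
      (fun B hB => Pool.Agent.BM.ridge_main hn hB.compact hB.convex hB.le_one
        (fun f hf => hB.ball f hf)) X hX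
    refine le_trans (csInf_le ⟨0, ?_⟩ ⟨T, rfl⟩) hT
    rintro e ⟨S, rfl⟩
    positivity
  refine ⟨⟨_, key⟩, csSup_le ?_ key⟩
  exact ⟨_, Fin n → ℝ, inferInstance, inferInstance, by simp, rfl⟩

end Pool.Agent.Helper88.Reserve.ThreeQuarters
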